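import Pool.Agent.Helper47.ME.Goals

/-!
# Packet ME TET: recognition of the tetrahedron
-/

set_option autoImplicit false

open Set
open Pool.Agent.Helper47.AQ
open Pool.Agent.Helper72.MK
open Pool.Agent.Helper47.ME

noncomputable section

namespace Pool.Agent.Helper87.ME

theorem mem_tri (P Q R y : Fin 2 → ℝ) : y ∈ convexHull ℝ ({P, Q, R} : Set (Fin 2 → ℝ)) ↔
    ∃ a b c : ℝ, 0 ≤ a ∧ 0 ≤ b ∧ 0 ≤ c ∧ a + b + c = 1 ∧ y = a • P + b • Q + c • R := by
  constructor
  · intro hy
    have hsub : ({P, Q, R} : Set (Fin 2 → ℝ)) ⊆ {y | ∃ a b c : ℝ, 0 ≤ a ∧ 0 ≤ b ∧ 0 ≤ c ∧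
        a + b + c = 1 ∧ y = a • P + b • Q + c • R} := by
      intro x hx
      simp only [mem_insert_iff, mem_singleton_iff] at hx
      rcases hx with rfl | rfl | rfl
      · exact ⟨1, 0, 0, by norm_num, le_rfl, le_rfl, by norm_num, by simp⟩
      · exact ⟨0, 1, 0, le_rfl, by norm_num, le_rfl, by norm_num, by simp⟩
      · exact ⟨0, 0, 1, le_rfl, le_rfl, by norm_num, by norm_num, by simp⟩
    have hconv : Convex ℝ {y : Fin 2 → ℝ | ∃ a b c : ℝ, 0 ≤ a ∧ 0 ≤ b ∧ 0 ≤ c ∧
        a + b + c = 1 ∧ y = a • P + b • Q + c • R} := by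
      rintro x ⟨a, b, c, ha, hb, hc, hs, rfl⟩ z ⟨a', b', c', ha', hb', hc', hs', rfl⟩ s t hs0 ht0 hst
      refine ⟨s * a + t * a', s * b + t * b', s * c + t * c', by positivity, by positivity,
        by positivity, ?_, ?_⟩
      · calc s * a + t * a' + (s * b + t * b') + (s * c + t * c')
            = s * (a + b + c) + t * (a' + b' + c') := by ring
          _ = 1 := by rw [hs, hs']; linarith
      · module
    exact convexHull_min hsub hconv hy
  · rintro ⟨a, b, c, ha, hb, hc, hs, rfl⟩
    have hP : P ∈ convexHull ℝ ({P, Q, R} : Set (Fin 2 → ℝ)) :=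
      subset_convexHull ℝ _ (by simp)
    have hQ : Q ∈ convexHull ℝ ({P, Q, R} : Set (Fin 2 → ℝ)) :=
      subset_convexHull ℝ _ (by simp)
    have hR : R ∈ convexHull ℝ ({P, Q, R} : Set (Fin 2 → ℝ)) :=
      subset_convexHull ℝ _ (by simp)
    have := (convex_convexHull ℝ ({P, Q, R} : Set (Fin 2 → ℝ))).sum_mem
      (t := (Finset.univ : Finset (Fin 3))) (w := ![a, b, c]) (z := ![P, Q, R])
      (by intro i _; fin_cases i <;> simpa) (by simp [Fin.sum_univ_three, hs])
      (by intro i _; fin_cases i <;> simpa)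
    simpa [Fin.sum_univ_three] using this

/-- the level of the third vertex: a point on an extreme level different from the level of the
edge is the third vertex. -/
theorem third {A B C m M m' : ℝ} {T : Set (Fin 2 → ℝ)} (hT : T = convexHull ℝ
    {![A, M], ![B, M], ![C, m']}) (hmM : m ≠ M)
    (hlev : (∀ x ∈ T, m ≤ x 1) ∧ m < M ∨ (∀ x ∈ T, x 1 ≤ m) ∧ M < m) {p : Fin 2 → ℝ}
    (hp : p ∈ T) (hpm : p 1 = m) : p = ![C, m'] := by
  have hC : (![C, m'] : Fin 2 → ℝ) ∈ T := by
    rw [hT]
    exact subset_convexHull ℝ _ (by simp)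
  have hp' := hp
  rw [hT, mem_tri] at hp'
  obtain ⟨a, b, c, ha, hb, hc, hs, rfl⟩ := hp'
  have h1 : a * M + b * M + c * m' = m := by
    simpa using hpm
  have hc1 : c = 1 := by
    rcases hlev with ⟨h, hlt⟩ | ⟨h, hlt⟩
    · have h2 : m ≤ m' := by simpa using h _ hC
      have h5 := mul_le_mul_of_nonneg_left h2 hc
      have h6 : (a + b) * M + c * m' = m := by linarith
      rw [show a + b = 1 - c by linarith] at h6
      have h3 : (1 - c) * (M - m) ≤ 0 := by
        calc (1 - c) * (M - m) = ((1 - c) * M + c * m') - c * m' - m + c * m := by ring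
          _ ≤ 0 := by rw [h6]; linarith
      have h4 : 0 ≤ 1 - c := by linarith
      nlinarith
    · have h2 : m' ≤ m := by simpa using h _ hC
      have h5 := mul_le_mul_of_nonneg_left h2 hc
      have h6 : (a + b) * M + c * m' = m := by linarith
      rw [show a + b = 1 - c by linarith] at h6
      have h3 : (1 - c) * (m - M) ≤ 0 := by
        calc (1 - c) * (m - M) = -((1 - c) * M + c * m') + c * m' + m - c * m := by ring
          _ ≤ 0 := by rw [h6]; linarith
      have h4 : 0 ≤ 1 - c := by linarith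
      nlinarith
  have ha0 : a = 0 := by linarith
  have hb0 : b = 0 := by linarith
  rw [hc1, ha0, hb0]
  simp

/-- a triangle with an edge on each of the two extreme levels does not exist -/
theorem no_two (h : TRIEStmt) {T : Set (Fin 2 → ℝ)} (hT : IsSimplex T) {m M : ℝ} (hmM : m < M)
    (hlow : ∀ x ∈ T, m ≤ x 1) (hup : ∀ x ∈ T, x 1 ≤ M)
    (htop : ∃ p ∈ T, ∃ p' ∈ T, p ≠ p' ∧ p 1 = M ∧ p' 1 = M)
    (hbot : ∃ p ∈ T, ∃ p' ∈ T, p ≠ p' ∧ p 1 = m ∧ p' 1 = m) : False := by
  obtain ⟨A, B, C, m', hAB, hm', hTe⟩ := h T M hT (Or.inl hup) htop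
  obtain ⟨p, hp, p', hp', hne, h1, h2⟩ := hbot
  exact hne ((third hTe hmM.ne (Or.inl ⟨hlow, hmM⟩) hp h1).trans
    (third hTe hmM.ne (Or.inl ⟨hlow, hmM⟩) hp' h2).symm)

/-- the point with the coordinates `a`, `b` in the directions `u`, `v`, and `z` -/
def pt (u : Fin 3) (a b z : ℝ) : Fin 3 → ℝ := fun j => if j = 2 then z else if j = u then a else b

theorem recog {K : Set (Fin 3 → ℝ)} (hint : (interior K).Nonempty) (hconv : Convex ℝ K)
    (u v : Fin 3) (huv : u ≠ v) (hu2 : u ≠ 2) (hv2 : v ≠ 2)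
    (hall : ∀ j : Fin 3, j = u ∨ j = v ∨ j = 2) {A B C A' B' C' m M : ℝ} (hAB : A < B)
    (hAB' : A' < B') (hmM : m < M)
    (hT1 : (fun x : Fin 3 → ℝ => ![x u, x 2]) '' K = convexHull ℝ {![A, M], ![B, M], ![C, m]})
    (hT0 : (fun x : Fin 3 → ℝ => ![x v, x 2]) '' K =
      convexHull ℝ {![A', m], ![B', m], ![C', M]}) : IsSimplex K := by
  have pu : ∀ a b z, pt u a b z u = a := fun a b z => by simp [pt, hu2]
  have pv : ∀ a b z, pt u a b z v = b := fun a b z => by simp [pt, hv2, huv.symm]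
  have p2 : ∀ a b z, pt u a b z 2 = z := fun a b z => by simp [pt]
  have hpt : ∀ x : Fin 3 → ℝ, x = pt u (x u) (x v) (x 2) := by
    intro x
    funext j
    rcases hall j with rfl | rfl | rfl
    · rw [pu]
    · rw [pv]
    · rw [p2]
  -- points of K
  have top : ∀ x ∈ K, x 2 = M → x v = C' := by
    intro x hx hxM
    have h1 : (![x v, x 2] : Fin 2 → ℝ) ∈ convexHull ℝ {![A', m], ![B', m], ![C', M]} := by
      rw [← hT0]
      exact ⟨x, hx, rfl⟩
    rw [mem_tri] at h1
    obtain ⟨a, b, c, ha, hb, hc, hs, he⟩ := h1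
    have e0 := congrFun he 0
    have e1 := congrFun he 1
    simp at e0 e1
    rw [hxM] at e1
    have h2 : (a + b) * (M - m) = 0 := by
      have : c = 1 - a - b := by linarith
      rw [this] at e1
      linarith
    have h3 : a + b = 0 := by
      rcases mul_eq_zero.1 h2 with h | h
      · exact h
      · exact absurd h (by linarith)
    have ha0 : a = 0 := by linarith
    have hb0 : b = 0 := by linarith
    have hc1 : c = 1 := by linarith
    rw [e0, ha0, hb0, hc1]
    ring
  have bot : ∀ x ∈ K, x 2 = m → x u = C := by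
    intro x hx hxM
    have h1 : (![x u, x 2] : Fin 2 → ℝ) ∈ convexHull ℝ {![A, M], ![B, M], ![C, m]} := by
      rw [← hT1]
      exact ⟨x, hx, rfl⟩
    rw [mem_tri] at h1
    obtain ⟨a, b, c, ha, hb, hc, hs, he⟩ := h1
    have e0 := congrFun he 0
    have e1 := congrFun he 1
    simp at e0 e1
    rw [hxM] at e1
    have h2 : (a + b) * (M - m) = 0 := by
      have : c = 1 - a - b := by linarith
      rw [this] at e1
      linarith
    have h3 : a + b = 0 := by
      rcases mul_eq_zero.1 h2 with h | h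
      · exact h
      · exact absurd h (by linarith)
    have ha0 : a = 0 := by linarith
    have hb0 : b = 0 := by linarith
    have hc1 : c = 1 := by linarith
    rw [e0, ha0, hb0, hc1]
    ring
  have lift1 : ∀ y ∈ ({![A, M], ![B, M], ![C, m]} : Set (Fin 2 → ℝ)), ∃ x ∈ K, x u = y 0 ∧
      x 2 = y 1 := by
    intro y hy
    have : y ∈ (fun x : Fin 3 → ℝ => ![x u, x 2]) '' K := by
      rw [hT1]
      exact subset_convexHull ℝ _ hy
    obtain ⟨x, hx, rfl⟩ := this
    exact ⟨x, hx, by simp, by simp⟩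
  have lift0 : ∀ y ∈ ({![A', m], ![B', m], ![C', M]} : Set (Fin 2 → ℝ)), ∃ x ∈ K, x v = y 0 ∧
      x 2 = y 1 := by
    intro y hy
    have : y ∈ (fun x : Fin 3 → ℝ => ![x v, x 2]) '' K := by
      rw [hT0]
      exact subset_convexHull ℝ _ hy
    obtain ⟨x, hx, rfl⟩ := this
    exact ⟨x, hx, by simp, by simp⟩
  have k1 : pt u A C' M ∈ K := by
    obtain ⟨x, hx, h1, h2⟩ := lift1 ![A, M] (by simp)
    simp at h1 h2
    have := top x hx h2
    rw [hpt x, h1, h2, this] at hx
    exact hx
  have k2 : pt u B C' M ∈ K := by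
    obtain ⟨x, hx, h1, h2⟩ := lift1 ![B, M] (by simp)
    simp at h1 h2
    have := top x hx h2
    rw [hpt x, h1, h2, this] at hx
    exact hx
  have k3 : pt u C A' m ∈ K := by
    obtain ⟨x, hx, h1, h2⟩ := lift0 ![A', m] (by simp)
    simp at h1 h2
    have := bot x hx h2
    rw [hpt x, h1, h2, this] at hx
    exact hx
  have k4 : pt u C B' m ∈ K := by
    obtain ⟨x, hx, h1, h2⟩ := lift0 ![B', m] (by simp)
    simp at h1 h2
    have := bot x hx h2
    rw [hpt x, h1, h2, this] at hx
    exact hx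
  set w : Fin 4 → Fin 3 → ℝ := ![pt u A C' M, pt u B C' M, pt u C A' m, pt u C B' m] with hw
  refine ⟨hint, Fin 4, inferInstance, w, ?_, ?_⟩
  · rw [affineIndependent_iff_of_fintype]
    intro c hc hc'
    rw [Finset.weightedVSub_eq_linear_combination _ hc] at hc'
    rw [Fin.sum_univ_four] at hc hc'
    have e2 := congrFun hc' 2
    have eu := congrFun hc' u
    have ev := congrFun hc' v
    simp only [hw, Pi.add_apply, Pi.smul_apply, smul_eq_mul, Matrix.cons_val_zero,
      Matrix.cons_val_one, Matrix.cons_val, pu, pv, p2, Pi.zero_apply] at e2 eu ev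
    have h1 : (c 0 + c 1) * (M - m) = 0 := by
      have : c 2 + c 3 = -(c 0 + c 1) := by linarith
      calc (c 0 + c 1) * (M - m) = (c 0 + c 1) * M + (-(c 0 + c 1)) * m := by ring
        _ = (c 0 + c 1) * M + (c 2 + c 3) * m := by rw [this]
        _ = c 0 * M + c 1 * M + c 2 * m + c 3 * m := by ring
        _ = 0 := e2
    have h2 : c 0 + c 1 = 0 := by
      rcases mul_eq_zero.1 h1 with h | h
      · exact h
      · exact absurd h (by linarith)
    have h3 : c 2 + c 3 = 0 := by linarith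
    have h4 : c 0 * (A - B) = 0 := by
      have hc1 : c 1 = -c 0 := by linarith
      have hc3 : c 3 = -c 2 := by linarith
      rw [hc1, hc3] at eu
      linarith
    have h5 : c 2 * (A' - B') = 0 := by
      have hc1 : c 1 = -c 0 := by linarith
      have hc3 : c 3 = -c 2 := by linarith
      rw [hc1, hc3] at ev
      linarith
    have h6 : c 0 = 0 := by
      rcases mul_eq_zero.1 h4 with h | h
      · exact h
      · exact absurd h (by linarith)
    have h7 : c 2 = 0 := by
      rcases mul_eq_zero.1 h5 with h | h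
      · exact h
      · exact absurd h (by linarith)
    intro i
    fin_cases i
    · exact h6
    · show c 1 = 0
      linarith
    · exact h7
    · show c 3 = 0
      linarith
  · apply Subset.antisymm
    · intro x hx
      have h1 : (![x u, x 2] : Fin 2 → ℝ) ∈ convexHull ℝ {![A, M], ![B, M], ![C, m]} := by
        rw [← hT1]
        exact ⟨x, hx, rfl⟩
      have h0 : (![x v, x 2] : Fin 2 → ℝ) ∈ convexHull ℝ {![A', m], ![B', m], ![C', M]} := by
        rw [← hT0]
        exact ⟨x, hx, rfl⟩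
      rw [mem_tri] at h1 h0
      obtain ⟨a, b, c, ha, hb, hc, hs, he⟩ := h1
      obtain ⟨a', b', c', ha', hb', hc', hs', he'⟩ := h0
      have e0 := congrFun he 0
      have e1 := congrFun he 1
      have f0 := congrFun he' 0
      have f1 := congrFun he' 1
      simp at e0 e1 f0 f1
      have hcc : c' = a + b := by
        have h2 : (c' - (a + b)) * (M - m) = 0 := by
          have hc1 : c = 1 - a - b := by linarith
          have hc2 : a' = 1 - b' - c' := by linarith
          rw [hc1] at e1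
          rw [hc2] at f1
          linarith
        rcases mul_eq_zero.1 h2 with h | h
        · linarith
        · exact absurd h (by linarith)
      have hcc' : c = a' + b' := by linarith
      have hmem := (convex_convexHull ℝ (range w)).sum_mem
        (t := (Finset.univ : Finset (Fin 4))) (w := ![a, b, a', b']) (z := w)
        (by intro i _; fin_cases i <;> simpa)
        (by
          rw [Fin.sum_univ_four]
          simp only [Matrix.cons_val_zero, Matrix.cons_val_one, Matrix.cons_val]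
          linarith)
        (fun i _ => subset_convexHull ℝ _ (mem_range_self i))
      have hxe : x = ∑ i, (![a, b, a', b'] : Fin 4 → ℝ) i • w i := by
        rw [Fin.sum_univ_four]
        funext j
        rcases hall j with rfl | rfl | rfl
        · simp only [hw, Pi.add_apply, Pi.smul_apply, smul_eq_mul, Matrix.cons_val_zero,
            Matrix.cons_val_one, Matrix.cons_val, pu]
          rw [e0, hcc']
          ring
        · simp only [hw, Pi.add_apply, Pi.smul_apply, smul_eq_mul, Matrix.cons_val_zero,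
            Matrix.cons_val_one, Matrix.cons_val, pv]
          rw [f0, hcc]
          ring
        · simp only [hw, Pi.add_apply, Pi.smul_apply, smul_eq_mul, Matrix.cons_val_zero,
            Matrix.cons_val_one, Matrix.cons_val, p2]
          rw [e1, hcc']
          ring
      rw [hxe]
      exact hmem
    · apply convexHull_min _ hconv
      rintro x ⟨i, rfl⟩
      fin_cases i
      · exact k1
      · exact k2
      · exact k3
      · exact k4

theorem pr0_eq (K : Set (Fin 3 → ℝ)) : pr 0 K = (fun x : Fin 3 → ℝ => ![x 1, x 2]) '' K := by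
  unfold pr
  congr 1
  funext x j
  fin_cases j <;> rfl

theorem pr1_eq (K : Set (Fin 3 → ℝ)) : pr 1 K = (fun x : Fin 3 → ℝ => ![x 0, x 2]) '' K := by
  unfold pr
  congr 1
  funext x j
  fin_cases j <;> rfl

theorem tet (h : TRIEStmt) : TETStmt := by
  rintro K hK hs0 hs1 ⟨p, hp, p', hp', hne, hpp, hmax⟩ ⟨q, hq, q', hq', hneq, hqq, hmin⟩
  rw [pr0_eq] at hs0
  rw [pr1_eq] at hs1
  set M := p 2 with hM
  set m := q 2 with hm
  -- `m < M`
  have hmM : m < M := by
    by_contra hcon
    push Not at hcon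
    -- `K` lies in a plane
    obtain ⟨x, hx⟩ := hK.int
    have hopen : IsOpen (interior K) := isOpen_interior
    have hcont : Continuous (fun t : ℝ => x + t • (Pi.single 2 1 : Fin 3 → ℝ)) := by fun_prop
    have hpre : IsOpen ((fun t : ℝ => x + t • (Pi.single 2 1 : Fin 3 → ℝ)) ⁻¹' interior K) :=
      hopen.preimage hcont
    have h0 : (0 : ℝ) ∈ (fun t : ℝ => x + t • (Pi.single 2 1 : Fin 3 → ℝ)) ⁻¹' interior K := by
      simpa using hx
    obtain ⟨ε, hε, hball⟩ := Metric.isOpen_iff.1 hpre 0 h0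
    have h1 : (ε / 2) ∈ Metric.ball (0 : ℝ) ε := by
      rw [Metric.mem_ball, dist_zero_right, Real.norm_eq_abs, abs_of_pos (by linarith)]
      linarith
    have h2 := interior_subset (hball h1)
    have h3 := hmax _ h2
    have h4 := hmin _ (interior_subset hx)
    simp at h3
    linarith
  have low0 : ∀ x ∈ (fun x : Fin 3 → ℝ => ![x 1, x 2]) '' K, m ≤ x 1 := by
    rintro _ ⟨x, hx, rfl⟩
    simpa using hmin x hx
  have up0 : ∀ x ∈ (fun x : Fin 3 → ℝ => ![x 1, x 2]) '' K, x 1 ≤ M := by
    rintro _ ⟨x, hx, rfl⟩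
    simpa using hmax x hx
  have low1 : ∀ x ∈ (fun x : Fin 3 → ℝ => ![x 0, x 2]) '' K, m ≤ x 1 := by
    rintro _ ⟨x, hx, rfl⟩
    simpa using hmin x hx
  have up1 : ∀ x ∈ (fun x : Fin 3 → ℝ => ![x 0, x 2]) '' K, x 1 ≤ M := by
    rintro _ ⟨x, hx, rfl⟩
    simpa using hmax x hx
  -- two different points in the image
  have two : ∀ (i : Fin 3) (c : ℝ) (x y : Fin 3 → ℝ), x ∈ K → y ∈ K → x i ≠ y i → x 2 = c →
      y 2 = c → ∃ z ∈ (fun x : Fin 3 → ℝ => ![x i, x 2]) '' K,
        ∃ z' ∈ (fun x : Fin 3 → ℝ => ![x i, x 2]) '' K, z ≠ z' ∧ z 1 = c ∧ z' 1 = c := by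
    intro i c x y hx hy hxy h1 h2
    refine ⟨_, ⟨x, hx, rfl⟩, _, ⟨y, hy, rfl⟩, ?_, by simpa using h1, by simpa using h2⟩
    intro he
    apply hxy
    simpa using congrFun he 0
  have diff : ∀ x y : Fin 3 → ℝ, x ≠ y → x 2 = y 2 → x 0 ≠ y 0 ∨ x 1 ≠ y 1 := by
    intro x y hxy h2
    by_contra hcon
    push Not at hcon
    apply hxy
    funext j
    fin_cases j
    · exact hcon.1
    · exact hcon.2
    · exact h2
  -- the general case
  have main : ∀ (i j : Fin 3), (i = 0 ∧ j = 1 ∨ i = 1 ∧ j = 0) →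
      IsSimplex ((fun x : Fin 3 → ℝ => ![x i, x 2]) '' K) →
      IsSimplex ((fun x : Fin 3 → ℝ => ![x j, x 2]) '' K) →
      p i ≠ p' i → q j ≠ q' j → IsSimplex K := by
    intro i j hij si sj h1 h2
    have lowi : ∀ x ∈ (fun x : Fin 3 → ℝ => ![x i, x 2]) '' K, m ≤ x 1 := by
      rintro _ ⟨x, hx, rfl⟩
      simpa using hmin x hx
    have upi : ∀ x ∈ (fun x : Fin 3 → ℝ => ![x i, x 2]) '' K, x 1 ≤ M := by
      rintro _ ⟨x, hx, rfl⟩
      simpa using hmax x hx
    have lowj : ∀ x ∈ (fun x : Fin 3 → ℝ => ![x j, x 2]) '' K, m ≤ x 1 := by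
      rintro _ ⟨x, hx, rfl⟩
      simpa using hmin x hx
    have upj : ∀ x ∈ (fun x : Fin 3 → ℝ => ![x j, x 2]) '' K, x 1 ≤ M := by
      rintro _ ⟨x, hx, rfl⟩
      simpa using hmax x hx
    obtain ⟨A, B, C, m1, hAB, hm1, hTi⟩ := h _ M si (Or.inl upi)
      (two i M p p' hp hp' h1 rfl hpp.symm)
    obtain ⟨A', B', C', m2, hAB', hm2, hTj⟩ := h _ m sj (Or.inr lowj)
      (two j m q q' hq hq' h2 rfl hqq.symm)
    have t1 := third hTi hmM.ne (Or.inl ⟨lowi, hmM⟩) (p := ![q i, q 2]) ⟨q, hq, rfl⟩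
      (by simp [hm])
    have hm1m : m1 = m := by
      have := congrFun t1 1
      simpa [hm] using this.symm
    have t2 := third (m := M) hTj hmM.ne' (Or.inr ⟨upj, hmM⟩) (p := ![p j, p 2]) ⟨p, hp, rfl⟩
      (by simp [hM])
    have hm2M : m2 = M := by
      have := congrFun t2 1
      simpa [hM] using this.symm
    rw [hm1m] at hTi
    rw [hm2M] at hTj
    rcases hij with ⟨rfl, rfl⟩ | ⟨rfl, rfl⟩
    · exact recog hK.int hK.conv 0 1 (by decide) (by decide) (by decide) (by decide) hAB hAB' hmM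
        hTi hTj
    · exact recog hK.int hK.conv 1 0 (by decide) (by decide) (by decide) (by decide) hAB hAB' hmM
        hTi hTj
  rcases diff p p' hne hpp with h1 | h1
  · rcases diff q q' hneq hqq with h2 | h2
    · exact (no_two h hs1 hmM low1 up1 (two 0 M p p' hp hp' h1 rfl hpp.symm)
        (two 0 m q q' hq hq' h2 rfl hqq.symm)).elim
    · exact main 0 1 (Or.inl ⟨rfl, rfl⟩) hs1 hs0 h1 h2
  · rcases diff q q' hneq hqq with h2 | h2
    · exact main 1 0 (Or.inr ⟨rfl, rfl⟩) hs0 hs1 h1 h2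
    · exact (no_two h hs0 hmM low0 up0 (two 1 M p p' hp hp' h1 rfl hpp.symm)
        (two 1 m q q' hq hq' h2 rfl hqq.symm)).elim

end Pool.Agent.Helper87.ME
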